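import Pool.Agent.H51.Main
import Pool.Agent.H51.Planar

/-!
# Brooks-type improper 2-colouring of planar graphs

For every `k ≥ 10 ^ 30`, every finite simple planar graph of maximum degree at most `2 k + 2` has a
`(k, k)`-colouring. Planarity is stated by a drawing in the plane with injective curves; the curves
of two different edges meet only at common end points.
-/

set_option autoImplicit false

namespace Pool.Agent.Results.MP_0c6f22_co.PlanarColouring

/-- A drawing of `G` in the plane: the vertices are distinct points `p v`, the edge `uv` is an injective curve from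
`p u` to `p v` through no other vertex, and the curves of two different edges (different as unordered
pairs) meet only in points which are end points of the first edge (and of the second, by symmetry). -/
def IsPlanarDrawing {n : ℕ} (G : SimpleGraph (Fin n)) (p : Fin n → ℝ × ℝ)
    (γ : Fin n → Fin n → unitInterval → ℝ × ℝ) : Prop :=
  Function.Injective p ∧
    (∀ u v, G.Adj u v → Continuous (γ u v) ∧ Function.Injective (γ u v) ∧
      γ u v 0 = p u ∧ γ u v 1 = p v ∧ (∀ z t, γ u v t = p z → z = u ∨ z = v)) ∧
    (∀ u v w x, G.Adj u v → G.Adj w x → s(u, v) ≠ s(w, x) →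
      ∀ t s, γ u v t = γ w x s → (γ u v t = p u ∨ γ u v t = p v))

/-- `G` is planar. -/
def IsPlanar {n : ℕ} (G : SimpleGraph (Fin n)) : Prop := ∃ p γ, IsPlanarDrawing G p γ

open Pool.Agent.H51 in
lemma noK33 {n : ℕ} {G : SimpleGraph (Fin n)} (h : IsPlanar G) : ¬ Minor G K33 := by
  obtain ⟨p, γ, hp, hγ, hcross⟩ := h
  apply no_K33_of_drawing hp hγ
  intro u v w x huv hwx huw hux hvw hvx
  apply hcross u v w x huv hwx
  intro heq
  rw [Sym2.eq_iff] at heq
  rcases heq with ⟨h1, _⟩ | ⟨h1, _⟩
  · exact huw h1
  · exact hux h1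

open Pool.Agent.H51 in
lemma coloring (k : ℕ) (hk : 10 ^ 30 ≤ k) (n : ℕ) (G : SimpleGraph (Fin n))
    (hG : ¬ Minor G K33) (hdeg : ∀ v, (G.neighborSet v).ncard ≤ 2 * k + 2) :
    ∃ J : Set (Fin n), ∀ v,
        (v ∈ J → {w | G.Adj v w ∧ w ∈ J}.ncard ≤ k) ∧
        (v ∉ J → {w | G.Adj v w ∧ w ∉ J}.ncard ≤ k) := by
  classical
  have hsum : ∀ (v : Fin n) (c : Fin n → Bool) (b : Bool),
      ({w | G.Adj v w ∧ c w = b}.ncard : ℤ) =
        ∑ y, (if c y = b then ((if G.Adj v y then 1 else 0 : ℕ) : ℤ) else 0) := by
    intro v c b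
    have h1 : {w | G.Adj v w ∧ c w = b} =
        ((Finset.univ.filter fun w => G.Adj v w ∧ c w = b : Finset (Fin n)) : Set (Fin n)) := by
      ext w; simp
    rw [h1, Set.ncard_coe_finset, Finset.card_filter]
    push_cast
    refine Finset.sum_congr rfl fun y _ => ?_
    by_cases h2 : G.Adj v y <;> by_cases h3 : c y = b <;> simp [h2, h3]
  have hT : ∀ v, ∑ y, ((if G.Adj v y then 1 else 0 : ℕ) : ℤ) ≤ 2 * (k : ℤ) + 2 := by
    intro v
    have h1 := hsum v (fun _ => true) true
    have h2 : {w | G.Adj v w ∧ (fun _ : Fin n => true) w = true} = G.neighborSet v := by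
      ext w; simp
    rw [h2] at h1
    simp only [if_true] at h1
    rw [← h1]
    exact_mod_cast hdeg v
  have inst : Inst (k : ℤ) G Finset.univ ∅ (fun x y => if G.Adj x y then 1 else 0)
      (fun _ => (k : ℤ)) := by
    constructor
    · intro x y h
      refine ⟨Finset.mem_univ _, ?_⟩
      by_contra hcon
      simp [hcon] at h
    · intro x y
      split_ifs <;> omega
    · intro x y _
      split_ifs <;> omega
    · intro x _
      exact hT x
    · intro x _ _
      have h1 := hT x
      have hk0 : (0 : ℤ) ≤ (k : ℤ) := Int.natCast_nonneg _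
      constructor
      · linarith
      · linarith
    · intro x _ h
      simp at h
  obtain ⟨c, hc⟩ := main_aux (k : ℤ) (by exact_mod_cast hk) _ G Finset.univ ∅ _ _ rfl hG inst
  refine ⟨{v | c v = true}, fun v => ⟨fun hv => ?_, fun hv => ?_⟩⟩
  · have h1 := hc v (Finset.mem_univ v)
    have hv' : c v = true := hv
    rw [hv', ← hsum v c true] at h1
    exact_mod_cast h1
  · have h1 := hc v (Finset.mem_univ v)
    have hv' : c v = false := by
      rw [← Bool.not_eq_true]
      exact hv
    rw [hv', ← hsum v c false] at h1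
    have h2 : {w | G.Adj v w ∧ w ∉ {v | c v = true}} = {w | G.Adj v w ∧ c w = false} := by
      ext w; simp
    rw [h2]
    exact_mod_cast h1

/-- For every `k ≥ 10 ^ 30`, the vertex set of every finite simple planar graph in which all vertices
have at most `2 k + 2` neighbours splits into `J` and its complement, such that every vertex has at
most `k` neighbours in its own part. -/
theorem result (k : ℕ) (hk : 10 ^ 30 ≤ k) (n : ℕ) (G : SimpleGraph (Fin n)) (hG : IsPlanar G)
    (hdeg : ∀ v, (G.neighborSet v).ncard ≤ 2 * k + 2) :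
    ∃ J : Set (Fin n), ∀ v,
      (v ∈ J → {w | G.Adj v w ∧ w ∈ J}.ncard ≤ k) ∧
      (v ∉ J → {w | G.Adj v w ∧ w ∉ J}.ncard ≤ k) :=
  coloring k hk n G (noK33 hG) hdeg

end Pool.Agent.Results.MP_0c6f22_co.PlanarColouring
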